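import Pool.Agent.W_c0up_h14.FR

/-!
# MP_c0ce05_co, Q2 (section 9): reduction of the family, for an arbitrary family
-/

set_option autoImplicit false

namespace C0st

open scoped Classical
open C0lo

theorem xiB_mono {p : ℝ} (hp0 : 0 < p) (hp1 : p ≤ 1) {n n' : ℕ} (h : n ≤ n') (D0 T0 k0 : ℕ) :
    xiB p n D0 T0 k0 ≤ xiB p n' D0 T0 k0 := by
  have hn : (n : ℝ) ≤ n' := by exact_mod_cast h
  have h1 : 0 ≤ 1 - p := by linarith
  have a1 : (n : ℝ) * (2 * (1 - p) ^ D0) ≤ n' * (2 * (1 - p) ^ D0) :=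
    mul_le_mul_of_nonneg_right hn (by positivity)
  have a2 : (n : ℝ) * ((p⁻¹ ^ 2 + 2 * D0 * p⁻¹) / T0) ≤ n' * ((p⁻¹ ^ 2 + 2 * D0 * p⁻¹) / T0) :=
    mul_le_mul_of_nonneg_right hn (by positivity)
  have a3 : (n : ℝ) * (1 - p) ^ k0 ≤ n' * (1 - p) ^ k0 :=
    mul_le_mul_of_nonneg_right hn (by positivity)
  unfold xiB
  linarith

theorem xiB_nonneg {p : ℝ} (hp0 : 0 < p) (hp1 : p ≤ 1) (n D0 T0 k0 : ℕ) :
    0 ≤ xiB p n D0 T0 k0 := by
  have h1 : 0 ≤ 1 - p := by linarith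
  unfold xiB
  positivity

/-- Reduction of the family `F`, with the numerical conditions of a larger `q'`. -/
theorem exists_family9 {η M eps E0 p : ℝ} {N q q' D1 T0 k0 np : ℕ}
    (h : Fam η M eps E0 p N q' D1 T0 k0 np) (hqq : q ≤ q') (hq1 : 1 ≤ q) (hnp : np < q)
    (P : GP N) {Dl : ℕ} (hP : P.Valid Dl) (F : Finset (Finset (Fin N)))
    (hF : ∀ A ∈ F, A.card = q) (hne : F.Nonempty) :
    ∃ (C : Finset (Finset (Fin N))) (R : Finset (Fin N)), C ⊆ F ∧ C.Nonempty ∧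
      R.card ≤ q ∧ (∀ A ∈ C, ((excS P A R).card : ℝ) ≤ E0) ∧
      ∑ A ∈ C, (((A ×ˢ A).filter (fun p => Bad M C p.1 p.2)).card : ℝ) ≤
        eps * (q : ℝ) ^ 2 * C.card ∧
      Real.log (F.card : ℝ) ≤
        Real.log (C.card : ℝ) + 5 / 1000 * η * Real.logb 2 N ^ 2 * Real.log 2 := by
  have hqR : (q : ℝ) ≤ q' := by exact_mod_cast hqq
  have hq0 : (0 : ℝ) ≤ q := Nat.cast_nonneg _
  have hsq : (Nat.sqrt q : ℝ) ≤ (Nat.sqrt q' : ℝ) := by exact_mod_cast Nat.sqrt_le_sqrt hqq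
  have hsq0 : (0 : ℝ) ≤ (Nat.sqrt q : ℝ) := Nat.cast_nonneg _
  have hgood : ∀ A ∈ F, ∃ R : Finset (Fin N), R ⊆ A ∧
      (R.card : ℝ) ≤ 3 * p * q' + (Nat.sqrt q' : ℝ) ∧ ((excS P A R).card : ℝ) ≤ E0 := by
    intro A hA
    have hq := hF A hA
    obtain ⟨R, h1, h2, h3⟩ := exists_goodG P hP A h.p0 h.p1 D1 T0 k0 (Nat.sqrt q) (Nat.sqrt q)
      h.D11 h.T01 (by
        rw [hq]
        exact Nat.lt_succ_sqrt q)
    rw [hq] at h2 h3
    refine ⟨R, h1, h2.trans ?_, h3.trans (le_trans ?_ h.exc)⟩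
    · have := mul_le_mul_of_nonneg_left hqR (show 0 ≤ 3 * p by linarith [h.p0])
      linarith
    · have e1 := xiB_mono h.p0 h.p1 hqq D1 T0 k0
      have e2 := xiB_nonneg h.p0 h.p1 q D1 T0 k0
      have e3 : (q : ℝ) * xiB p q D1 T0 k0 ≤ q' * xiB p q' D1 T0 k0 :=
        mul_le_mul hqR e1 e2 (by linarith)
      have e4 : (q : ℝ) * (Nat.sqrt q : ℝ) ≤ q' * (Nat.sqrt q' : ℝ) :=
        mul_le_mul hqR hsq hsq0 (by linarith)
      linarith
  choose! Rf hR1 hR2 hR3 using hgood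
  obtain ⟨rm, hrm⟩ : ∃ rm : ℕ, rm = ⌊3 * p * q' + (Nat.sqrt q' : ℝ)⌋₊ := ⟨_, rfl⟩
  have hx0 : 0 ≤ 3 * p * q' + (Nat.sqrt q' : ℝ) := by
    have := h.p0
    positivity
  have hT : (F.image Rf).card ≤ (N + 1) ^ rm := by
    have h1 : F.image Rf ⊆
        (Finset.univ : Finset (Finset (Fin N))).filter (fun t => t.card ≤ rm) := by
      intro t ht
      obtain ⟨A, hA, rfl⟩ := Finset.mem_image.1 ht
      rw [Finset.mem_filter, hrm]
      exact ⟨Finset.mem_univ _, Nat.le_floor (hR2 A hA)⟩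
    have h2 := (Finset.card_le_card h1).trans (card_small (α := Fin N) rm)
    rwa [Fintype.card_fin] at h2
  obtain ⟨R0, hR0, hmax⟩ := Finset.exists_max_image (F.image Rf)
    (fun t => (F.filter (fun A => Rf A = t)).card) (hne.image Rf)
  obtain ⟨C0, hC0⟩ : ∃ C0, C0 = F.filter (fun A => Rf A = R0) := ⟨_, rfl⟩
  have hpig : F.card ≤ C0.card * (F.image Rf).card := by
    rw [hC0]
    exact Finset.card_le_mul_card_image F _ hmax
  obtain ⟨A0, hA0, hA0R⟩ := Finset.mem_image.1 hR0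
  have hC0ne : C0.Nonempty := ⟨A0, by
    rw [hC0, Finset.mem_filter]
    exact ⟨hA0, hA0R⟩⟩
  have hC0m : ∀ A ∈ C0, A ∈ F ∧ Rf A = R0 := by
    intro A hA
    rw [hC0] at hA
    exact Finset.mem_filter.1 hA
  have hN2 := h.N2
  have hNR : (2 : ℝ) ≤ (N : ℝ) := by exact_mod_cast hN2
  have hlM : 0 < Real.log M := Real.log_pos h.M1
  have hlN : 0 < Real.log (N : ℝ) := Real.log_pos (by linarith)
  have hpin2 : Real.log N < q * (eps / 4) * Real.log M := by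
    have e1 := h.pin3
    have e2 : (np : ℝ) < q := by exact_mod_cast hnp
    have e3 : 0 < eps * Real.log M := mul_pos h.eps0 hlM
    have e4 := mul_lt_mul_of_pos_right e2 e3
    linarith
  obtain ⟨C, hC1, hC2, hC3, hC4⟩ := pin C0 hC0ne q hq1 (fun A hA => hF A (hC0m A hA).1)
    (by omega) h.M1 h.eps0 h.pin1 hpin2 np h.pin3
  refine ⟨C, R0, fun A hA => (hC0m A (hC1 hA)).1, hC2, ?_, ?_, hC4, ?_⟩
  · rw [← hA0R, ← hF A0 hA0]
    exact Finset.card_le_card (hR1 A0 hA0)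
  · intro A hA
    have h1 := hC0m A (hC1 hA)
    rw [← h1.2]
    exact hR3 A h1.1
  · have hc0 : (0 : ℝ) < (C.card : ℝ) := by exact_mod_cast hC2.card_pos
    have hf0 : (0 : ℝ) < (F.card : ℝ) := by exact_mod_cast hne.card_pos
    have hN0 : (0 : ℝ) < (N : ℝ) := by linarith
    have h1 : (F.card : ℝ) ≤ C.card * (N : ℝ) ^ np * ((N : ℝ) + 1) ^ rm := by
      have h2 : (F.card : ℝ) ≤ (C0.card : ℝ) * ((N : ℝ) + 1) ^ rm := by
        have h3 := hpig.trans (Nat.mul_le_mul_left C0.card hT)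
        exact_mod_cast h3
      exact h2.trans (mul_le_mul_of_nonneg_right hC3 (by positivity))
    have h2 := Real.log_le_log hf0 h1
    rw [Real.log_mul (by positivity) (by positivity), Real.log_mul (by positivity) (by positivity),
      Real.log_pow, Real.log_pow] at h2
    have h3 : (rm : ℝ) ≤ 3 * p * q' + (Nat.sqrt q' : ℝ) := by
      rw [hrm]
      exact Nat.floor_le hx0
    have h4 : 0 ≤ Real.log ((N : ℝ) + 1) := Real.log_nonneg (by linarith)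
    have h5 := mul_le_mul_of_nonneg_right h3 h4
    have h6 := h.cost
    linarith

end C0st
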