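import Pool.Agent.W_c0q2_h86.MN9
import Pool.Agent.W_c0q2_h86.FR9
import Pool.Agent.W_c0up_h14.ST
import Pool.Agent.W_c0q2_h20.Iface

/-!
# MP_c0ce05_co, Q2 (section 9): the static theorem, large range
-/

set_option autoImplicit false

namespace C0q2

open scoped Classical
open C0lo C0st

/-- `η` of section 9, `10 η = 10 ^ (-17) / 400` -/
noncomputable def eta9 : ℝ := 1 / (4000 * 10 ^ 17)

theorem eta9_pos : 0 < eta9 := by
  unfold eta9
  positivity

theorem eta9_le : eta9 ≤ 1 / 200 := by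
  unfold eta9
  norm_num

/-- the numbers of links inside a set -/
theorem lk_ed_le9 {N : ℕ} {P : GP N} {Dl : ℕ} (hV : P.Valid Dl) (A : Finset (Fin N)) :
    lk P (ed A) (ed A) ≤ (ed A).card := by
  unfold lk
  refine Finset.card_le_card_of_injOn (fun d => d.1) ?_ ?_
  · intro d hd
    exact (Finset.mem_filter.1 hd).2.1
  · intro d hd d' hd' h
    exact hV.fn d (Finset.mem_filter.1 hd).1 d' (Finset.mem_filter.1 hd').1 h

/-- **Section 9** -/
theorem S_Ma_holds : S_Ma := by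
  have hη0 := eta9_pos
  have hη1 := eta9_le
  have hηv : eta9 = 1 / (4000 * 10 ^ 17) := rfl
  obtain ⟨r, n0, n, D1, T0, k0, np, p, eps, hev⟩ := exists_params hη0 hη1
  rw [Filter.eventually_atTop] at hev
  obtain ⟨N0, hN0⟩ := hev
  refine ⟨max (max 1000 ((np : ℝ) + 1)) (Real.logb 2 ((N0 : ℝ) + 1)), ?_⟩
  intro N q L l hB hL0
  have hLd := hB.L_def
  have hL1 : 1000 ≤ L := le_trans (le_trans (le_max_left _ _) (le_max_left _ _)) hL0
  have hL2 : (np : ℝ) + 1 ≤ L := le_trans (le_trans (le_max_right _ _) (le_max_left _ _)) hL0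
  have hL3 : Real.logb 2 ((N0 : ℝ) + 1) ≤ L := le_trans (le_max_right _ _) hL0
  have hNpos : 1 ≤ N := by
    rcases Nat.eq_zero_or_pos N with h0 | h0
    · rw [h0, Nat.cast_zero, Real.logb_zero] at hLd
      linarith
    · exact h0
  have hNR : (0 : ℝ) < (N : ℝ) := by exact_mod_cast hNpos
  have hNN0 : N0 ≤ N := by
    rw [hLd, Real.logb_le_logb (by norm_num) (by positivity) hNR] at hL3
    have : N0 + 1 ≤ N := by exact_mod_cast hL3
    omega
  obtain ⟨hBig, hFam⟩ := hN0 N hNN0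
  have hl1 := hB.l_big
  have hl2 := hB.l_sm
  have hq1 := hB.q_ge
  have hq2 := hB.q_le
  have hl0 : 0 ≤ l := le_trans (by positivity) hl1
  have hlL : l ≤ L / 10 ^ 40 := by
    rw [le_div_iff₀ (by positivity)]
    linarith
  have hlL2 : l ≤ L / 4 := by
    refine hlL.trans ?_
    exact div_le_div_of_nonneg_left (by linarith) (by norm_num) (by norm_num)
  have hqL : (q : ℝ) ≤ 2 * L := by linarith
  have hqL' : 2 * L - 2 * l ≤ q := by linarith
  have hqn : np < q := by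
    have : (np : ℝ) < q := by linarith
    exact_mod_cast this
  have hq0 : 1 ≤ q := by omega
  have hqq : q ≤ qf eta9 N := by
    have h1 : (2 + 20 * eta9) * Real.logb 2 N ≤ (qf eta9 N : ℝ) := Nat.le_ceil _
    rw [← hLd] at h1
    have h2 : 0 ≤ 20 * eta9 * L := by positivity
    have h3 : (q : ℝ) ≤ (qf eta9 N : ℝ) := by linarith
    exact_mod_cast h3
  have hqe : (q : ℝ) * (2 * l) ≤ 1 / 10 * eta9 * L ^ 2 := by
    have h1 : (q : ℝ) * (2 * l) ≤ (2 * L) * (2 * (L / 10 ^ 40)) :=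
      mul_le_mul hqL (by linarith) (by linarith) (by linarith)
    have h2 : (2 * L) * (2 * (L / 10 ^ 40)) = 4 / 10 ^ 40 * L ^ 2 := by ring
    rw [h2] at h1
    refine h1.trans (mul_le_mul_of_nonneg_right ?_ (by positivity))
    rw [hηv]
    norm_num
  have hlogN := log_succ_le hNpos
  rw [hLd] at hqL hqL' hqe hL1
  obtain ⟨ι, inst, Z, a, ha, hs, hmain⟩ := static_main9 hBig hFam.eps0.le hqq hq0
    (show 0 ≤ 2 * l by linarith) hqL' hqL hqe hL1 hlogN
  rw [← hLd] at hqL hqL' hqe hL1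
  refine ⟨ι, inst, Z, a, ha, hs, ?_⟩
  intro P hm hVd D hD
  obtain ⟨Dl, hV, hDl⟩ := hVd
  rw [hLd] at hDl
  have hV' : P.Valid (Df N) := Valid_mono hV (Nat.le_floor hDl)
  by_cases hne : (Fam P q D).Nonempty
  · have hLpos : 0 < L := by linarith
    have hLL : 0 < L ^ 2 := by positivity
    -- the number of links
    obtain ⟨A0, hA0⟩ := hne
    have hDle : (D : ℝ) ≤ 2 * L ^ 2 := by
      obtain ⟨h1, h2, h3, h4⟩ := mem_Fam.1 hA0
      have h5 := lk_ed_le9 hV A0
      rw [h3, card_ed, h1, Nat.choose_two_right] at h5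
      have h6 : D * 2 ≤ q * (q - 1) := le_trans (Nat.mul_le_mul_right 2 h5)
        (Nat.div_mul_le_self _ _)
      have h7 : D * 2 ≤ q * q := h6.trans (Nat.mul_le_mul_left q (Nat.sub_le q 1))
      have h8 : (D : ℝ) * 2 ≤ q * q := by exact_mod_cast h7
      have h9 : (q : ℝ) * q ≤ (2 * L) * (2 * L) :=
        mul_le_mul hqL hqL (Nat.cast_nonneg _) (by linarith)
      nlinarith
    obtain ⟨ν, hν⟩ : ∃ ν : ℝ, ν = (D : ℝ) / (400 * L ^ 2) := ⟨_, rfl⟩
    have hν1 : (D : ℝ) = 400 * ν * L ^ 2 := by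
      rw [hν]
      field_simp
    have hν2 : 10 * eta9 ≤ ν := by
      rw [hν, le_div_iff₀ (by positivity), hηv]
      have : (10 : ℝ) ^ (-17 : ℤ) = 1 / 10 ^ 17 := by
        rw [zpow_neg]
        norm_num
      rw [this] at hD
      have h1 : (10 : ℝ) * (1 / (4000 * 10 ^ 17)) * (400 * L ^ 2) = 1 / 10 ^ 17 * L ^ 2 := by ring
      rw [h1]
      exact hD
    have hν3 : ν ≤ 1 / 200 := by
      rw [hν, div_le_iff₀ (by positivity)]
      linarith
    obtain ⟨C, R, hCsub, hCne, hR, hexc, hbad, hlog⟩ := exists_family9 hFam hqq hq0 hqn P hV'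
      (Fam P q D) (fun A hA => (mem_Fam.1 hA).1) ⟨A0, hA0⟩
    have hCall : ∀ A ∈ C, A.card = q ∧ Disjoint (ed A) P.K ∧
        (P.db.filter (fun d => d.1 ∈ ed A ∧ d.2 ∈ ed A)).card = D ∧
        ((ed A \ P.C).card : ℝ) ≤ ν * Real.logb 2 N ^ 2 := by
      intro A hA
      obtain ⟨h1, h2, h3, h4⟩ := mem_Fam.1 (hCsub hA)
      refine ⟨h1, h2, h3, ?_⟩
      have h5 : 400 * ((ed A \ P.C).card : ℝ) ≤ (D : ℝ) := by exact_mod_cast h4
      rw [← hLd]
      rw [hν1] at h5
      linarith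
    have hmn := hmain P hV' hm D ν hν2 hν3 (by rw [← hLd]; exact hν1) C R hCall hCne hR hexc hbad
    have hc : (0 : ℝ) < ((Fam P q D).card : ℝ) := by
      exact_mod_cast Finset.card_pos.2 ⟨A0, hA0⟩
    have hpos : (0 : ℝ) < (2 : ℝ) ^ (0.575 * (D : ℝ) / 400) :=
      Real.rpow_pos_of_pos (by norm_num) _
    rw [← Real.log_le_log_iff hc hpos, Real.log_rpow (by norm_num)]
    rw [← hLd] at hmn hlog
    have hlog2 : 0 < Real.log 2 := Real.log_pos (by norm_num)
    have e1 : 0.575 * (D : ℝ) / 400 * Real.log 2 = 0.575 * (ν * L ^ 2 * Real.log 2) := by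
      rw [hν1]
      ring
    rw [e1]
    have e2 : 10 * eta9 * (L ^ 2 * Real.log 2) ≤ ν * (L ^ 2 * Real.log 2) :=
      mul_le_mul_of_nonneg_right hν2 (by positivity)
    have e3 : 0 ≤ ν * (L ^ 2 * Real.log 2) := by
      have : 0 < ν := by linarith
      positivity
    calc Real.log ((Fam P q D).card : ℝ)
        ≤ Real.log (C.card : ℝ) + 5 / 1000 * eta9 * L ^ 2 * Real.log 2 := hlog
      _ ≤ 572 / 1000 * ν * L ^ 2 * Real.log 2 + 5 / 1000 * eta9 * L ^ 2 * Real.log 2 := by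
          linarith
      _ ≤ 0.575 * (ν * L ^ 2 * Real.log 2) := by
          norm_num
          nlinarith
  · rw [Finset.not_nonempty_iff_eq_empty] at hne
    rw [hne, Finset.card_empty, Nat.cast_zero]
    positivity

end C0q2
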