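import Mathlib

/-!
# MP_c0ce05_co, Q2 (proofs row 518, section 9): the final numbers for `q ≈ 2 L` and many links
-/

set_option autoImplicit false

namespace C0st

/-- The two regimes, `γ = 1 - g0 ∈ [.58, .59]`. From `g (f + u) ≥ g (2 L - e)` and
`f² / 2 - g f ≥ - g² / 2`: `f² / 2 + g u ≥ 2 g L - g e - g² / 2`.
If `g ≤ L / 2` the second alternative holds: the left side is at most
`g L - γ (2 g L - g² / 2 - ν L²) + g e`, convex in `g`, for `g = .565 ν L` it is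
`≤ (.4896 + .1 ν) ν L²`, for `g = L / 2` it is `≤ (-.0075 + .59 ν) L²`.
If `g ≥ L / 2` the first alternative holds: the left side is at most
`- (1 - 2 g0) (g L - g² / 2) + ν L² + g e`, and `g (2 L - g) ≥ 6.25 ν L²` (concave in `g`, at
`g = L / 2` it is `.75 L²`, at `g = (2 - 100 ν) L` it is `100 ν (2 - 100 ν) L² ≥ 100 ν L²`). -/
theorem num9 {ν g0 L f g u e : ℝ} (hν : 0 < ν) (hν1 : ν ≤ 1 / 200) (h1 : 41 / 100 ≤ g0)
    (h2 : g0 ≤ 42 / 100) (hL : 0 < L) (he : 0 ≤ e)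
    (hg : 565 / 1000 * ν * L ≤ g) (hgm : g ≤ (2 - 100 * ν) * L) (hq : 2 * L - e ≤ f + u) :
    g * L - (f ^ 2 / 2 + g * u) + ν * L ^ 2 + g0 * (f ^ 2 / 2 - g ^ 2 / 2 + g * u) ≤
        1 / 2 * ν * L ^ 2 + g * e ∨
      g * L - (1 - g0) * (f ^ 2 / 2 + g * u - ν * L ^ 2) ≤ 1 / 2 * ν * L ^ 2 + g * e := by
  have hνL : 0 < ν * L := mul_pos hν hL
  have hg0 : 0 < g := by nlinarith
  have hLL : 0 < L ^ 2 := by positivity
  have hνLL : 0 < ν * L ^ 2 := by positivity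
  have hge : 0 ≤ g * e := mul_nonneg hg0.le he
  have hcom : 2 * (g * L) - g * e - g ^ 2 / 2 ≤ f ^ 2 / 2 + g * u := by
    have a1 : g * (2 * L - e) ≤ g * (f + u) := mul_le_mul_of_nonneg_left hq hg0.le
    nlinarith [sq_nonneg (f - g)]
  have hgL : 0 < g * L := mul_pos hg0 hL
  rcases le_total g (L / 2) with hc | hc
  · right
    have b1 : 0 ≤ (g - 565 / 1000 * ν * L) * (L / 2 - g) :=
      mul_nonneg (by linarith) (by linarith)
    have b2 : g ^ 2 ≤ g * L / 2 + 565 / 1000 * (ν * (g * L)) - 2825 / 10000 * (ν * L ^ 2) := by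
      nlinarith
    have b3 : 565 / 1000 * (ν * L ^ 2) ≤ g * L := by nlinarith
    have b4 : 0 < ν * (g * L) := mul_pos hν hgL
    have b5 : (1 - g0) * (2 * (g * L) - g * e - g ^ 2 / 2 - ν * L ^ 2) ≤
        (1 - g0) * (f ^ 2 / 2 + g * u - ν * L ^ 2) :=
      mul_le_mul_of_nonneg_left (by linarith) (by linarith)
    have b6 : 0 ≤ 2 * (g * L) - g ^ 2 / 2 - ν * L ^ 2 := by
      have : g ^ 2 ≤ g * L / 2 := by nlinarith
      nlinarith
    have b7 : 58 / 100 * (2 * (g * L) - g ^ 2 / 2 - ν * L ^ 2) ≤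
        (1 - g0) * (2 * (g * L) - g ^ 2 / 2 - ν * L ^ 2) :=
      mul_le_mul_of_nonneg_right (by linarith) b6
    have b8 : (1 - g0) * (g * e) ≤ g * e := by nlinarith
    have b9 : ν * (g * L) ≤ 1 / 200 * (g * L) := mul_le_mul_of_nonneg_right hν1 hgL.le
    nlinarith
  · left
    have c1 : (1 - g0) * (2 * (g * L) - g * e - g ^ 2 / 2) ≤ (1 - g0) * (f ^ 2 / 2 + g * u) :=
      mul_le_mul_of_nonneg_left hcom (by linarith)
    have c2 : 0 ≤ (g - L / 2) * ((2 - 100 * ν) * L - g) := mul_nonneg (by linarith) (by linarith)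
    have c3 : 625 / 100 * (ν * L ^ 2) ≤ g * (2 * L - g) := by
      have c4 : 100 * (ν * (g * L)) ≤ g * (2 * L - g) := by nlinarith
      have c5 : L ^ 2 / 2 ≤ g * L := by nlinarith
      have c6 : ν * (L ^ 2 / 2) ≤ ν * (g * L) := mul_le_mul_of_nonneg_left c5 hν.le
      nlinarith
    have c7 : 16 / 100 * (g * (2 * L - g)) ≤ (1 - 2 * g0) * (g * (2 * L - g)) := by
      refine mul_le_mul_of_nonneg_right (by linarith) (by linarith)
    have b8 : (1 - g0) * (g * e) ≤ g * e := by nlinarith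
    nlinarith

/-- The same with error terms. Proof: from `hD0`, `s0 ≤ q`, `q ≤ 2 L`:
`s0² ≤ 4 L² + 2 E0 - 800 ν L²`, `g² ≤ s0² + 2 q δ`, so `g ≤ (2 - 100 ν) L`; then as in `num2`. -/
theorem num29 {ν g0 L f g u T D s0 e1 E0 δ e q D0 : ℝ} (hν : 0 < ν) (hν1 : ν ≤ 1 / 200)
    (h1 : 41 / 100 ≤ g0) (h2 : g0 ≤ 42 / 100) (hL : 0 < L) (hu : 0 ≤ u) (he : 0 ≤ e)
    (hgf : g ≤ f) (hg : 565 / 1000 * ν * L ≤ g) (hq : f + u = q) (hq1 : 2 * L - e ≤ q)
    (hq2 : q ≤ 2 * L) (he1 : 0 ≤ e1) (hE0 : 0 ≤ E0) (hδ : 0 ≤ δ)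
    (hT : f * (f - 1) / 2 + g * u ≤ T + ν * L ^ 2 + e1) (hDT : D ≤ T)
    (hs0 : 0 ≤ s0) (hs1 : s0 ≤ g) (hs2 : g ≤ s0 + δ)
    (hD : D + s0 * (s0 - 1) / 2 ≤ f * (f - 1) / 2 + g * u + E0)
    (hD0 : D0 + s0 * (s0 - 1) / 2 ≤ q * (q - 1) / 2 + E0) (hD1 : D0 = 400 * ν * L ^ 2)
    (herr : E0 + q * δ ≤ 200 * ν * L ^ 2) :
    g * L - T + g0 * D ≤ 1 / 2 * ν * L ^ 2 + (g * e + f + e1 + E0 + g * δ) := by
  have hνL : 0 < ν * L := mul_pos hν hL
  have hg0 : 0 < g := by nlinarith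
  have hf0 : 0 < f := lt_of_lt_of_le hg0 hgf
  have hgδ : 0 ≤ g * δ := mul_nonneg hg0.le hδ
  have hgq : g ≤ q := by linarith
  have hgm : g ≤ (2 - 100 * ν) * L := by
    have a1 : s0 ^ 2 ≤ q ^ 2 + 2 * E0 - 800 * ν * L ^ 2 := by nlinarith
    have a2 : q ^ 2 ≤ (2 * L) ^ 2 := pow_le_pow_left₀ (by linarith) hq2 2
    have a3 : g ^ 2 ≤ s0 ^ 2 + 2 * (q * δ) := by
      have b1 : g * g ≤ g * (s0 + δ) := mul_le_mul_of_nonneg_left hs2 hg0.le
      have b2 : s0 * g ≤ s0 * (s0 + δ) := mul_le_mul_of_nonneg_left hs2 hs0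
      have b3 : s0 * δ ≤ q * δ := mul_le_mul_of_nonneg_right (by linarith) hδ
      have b4 : g * δ ≤ q * δ := mul_le_mul_of_nonneg_right hgq hδ
      nlinarith
    have a4 : g ^ 2 ≤ ((2 - 100 * ν) * L) ^ 2 := by
      have b1 : 0 ≤ ν ^ 2 * L ^ 2 := by positivity
      nlinarith
    exact (pow_le_pow_iff_left₀ hg0.le (mul_nonneg (by linarith) hL.le) (by norm_num)).1 a4
  rcases num9 (u := u) (f := f) hν hν1 h1 h2 hL he hg hgm (by rw [hq]; exact hq1) with h | h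
  · -- first alternative
    have hs : g ^ 2 - 2 * (g * δ) ≤ s0 ^ 2 := by
      rcases le_total δ g with hd | hd
      · have : (g - δ) ^ 2 ≤ s0 ^ 2 := pow_le_pow_left₀ (by linarith) (by linarith) 2
        nlinarith
      · have : g ^ 2 ≤ g * δ := by nlinarith
        nlinarith [sq_nonneg s0]
    have hD2 : D ≤ f ^ 2 / 2 + g * u - g ^ 2 / 2 + (E0 + g * δ) := by
      have : s0 / 2 - f / 2 ≤ 0 := by linarith
      nlinarith
    have hD3 : g0 * D ≤ g0 * (f ^ 2 / 2 - g ^ 2 / 2 + g * u) + g0 * (E0 + g * δ) := by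
      have := mul_le_mul_of_nonneg_left hD2 (show (0 : ℝ) ≤ g0 by linarith)
      nlinarith
    have hD4 : g0 * (E0 + g * δ) ≤ E0 + g * δ := by
      have : 0 ≤ (1 - g0) * (E0 + g * δ) := mul_nonneg (by linarith) (by linarith)
      nlinarith
    nlinarith
  · -- second alternative
    have hg1 : g0 * D ≤ g0 * T := mul_le_mul_of_nonneg_left hDT (by linarith)
    have hT2 : f ^ 2 / 2 + g * u - ν * L ^ 2 - (f / 2 + e1) ≤ T := by nlinarith
    have hT3 : (1 - g0) * (f ^ 2 / 2 + g * u - ν * L ^ 2) - (1 - g0) * (f / 2 + e1) ≤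
        (1 - g0) * T := by
      have := mul_le_mul_of_nonneg_left hT2 (show (0 : ℝ) ≤ 1 - g0 by linarith)
      nlinarith
    have hT4 : (1 - g0) * (f / 2 + e1) ≤ f + e1 := by
      have : 0 ≤ g0 * (f / 2 + e1) := mul_nonneg (by linarith) (by linarith)
      nlinarith
    nlinarith

end C0st
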