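import Pool.Agent.W_c0up_h14.PW
import Pool.Agent.W_c0up_h86.C4
import Pool.Agent.W_c0q2_h86.Num9

/-!
# MP_c0ce05_co, Q2 (section 9): the pointwise bound for `q ≈ 2 L` and many links
-/

set_option autoImplicit false

namespace C0st

open scoped Classical
open C0lo

variable {N r : ℕ}

/-- all links: `D + C(s0, 2) ≤ C(q, 2) + exc` -/
theorem count_links (P : GP N) {Dl : ℕ} (hP : P.Valid Dl) (A R : Finset (Fin N)) (n : ℕ)
    (lv : ℕ → ℕ) (s : St N r) (hdb : s.db = P.db)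
    (hrel : ∀ a b, (a, b) ∈ s.rel ↔ Bef s.ty a b ∧ Rch P R n a b)
    (hL : ∀ x ∈ A, x ∈ Lam P R → x ∈ Vs lv s 0) :
    ∃ s0 : ℕ, s0 ≤ (Ge lv s A).card ∧
      (Ge lv s A).card * (n / 2 + 1) ≤ s0 * (n / 2 + 1) + A.card ∧
      dbl s ((ed A).filter (fun e => Fine lv s A e)) + s0.choose 2 ≤
        (A \ Vs lv s 0).card.choose 2 + (Ge lv s A).card * (A ∩ Vs lv s 0).card +
          (excS P A R).card ∧
      (P.db.filter (fun d => d.1 ∈ ed A ∧ d.2 ∈ ed A)).card + s0.choose 2 ≤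
        A.card.choose 2 + (excS P A R).card := by
  obtain ⟨g0, h1, h2, h3⟩ := count_disc lv hP (R := R) (n := n) (k := n / 2) hrel
    (by omega) A
  have h5 : ((A \ Vs lv s 0) ×ˢ (A \ Vs lv s 0)).filter (fun z => Exc P A R z.1 z.2) ⊆
      excS P A R := by
    intro z hz
    obtain ⟨hz1, hz2⟩ := Finset.mem_filter.1 hz
    obtain ⟨hz3, hz4⟩ := Finset.mem_product.1 hz1
    obtain ⟨h6, h7⟩ := Finset.mem_sdiff.1 hz3
    obtain ⟨h8, h9⟩ := Finset.mem_sdiff.1 hz4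
    exact Finset.mem_filter.2 ⟨Finset.mem_product.2 ⟨h6, h8⟩,
      fun h => h7 (hL _ h6 h), fun h => h9 (hL _ h8 h), hz2⟩
  have h6 := Finset.card_le_card h5
  refine ⟨g0, h2, ?_, ?_, ?_⟩
  · rw [Nat.mul_comm, Nat.mul_comm g0]
    exact h1
  · have h4 : dbl s ((ed A).filter (fun e => Fine lv s A e)) ≤ (DP lv s P A).card := by
      unfold dbl
      rw [hdb]
      refine Finset.card_le_card_of_injOn (fun d => d.1) ?_ ?_
      · intro d hd
        obtain ⟨hd1, hd2, hd3⟩ := Finset.mem_filter.1 hd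
        obtain ⟨h5, h6⟩ := Finset.mem_filter.1 hd2
        obtain ⟨h7, _⟩ := Finset.mem_filter.1 hd3
        exact Finset.mem_filter.2 ⟨h5, h6, d.2, hd1, (mem_ed.1 h7).1⟩
      · intro d hd d' hd' hdd
        exact hP.fn d (Finset.mem_filter.1 hd).1 d' (Finset.mem_filter.1 hd').1 hdd
    omega
  · have h4 : (P.db.filter (fun d => d.1 ∈ ed A ∧ d.2 ∈ ed A)).card ≤
        (DP lv s P A ∪ (ed A).filter (fun e => ¬ Fine lv s A e)).card := by
      refine Finset.card_le_card_of_injOn (fun d => d.1) ?_ ?_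
      · intro d hd
        obtain ⟨hd1, hd2, hd3⟩ := Finset.mem_filter.1 hd
        refine Finset.mem_coe.2 (Finset.mem_union.2 ?_)
        by_cases hf : Fine lv s A d.1
        · exact Or.inl (Finset.mem_filter.2 ⟨hd2, hf, d.2, hd1, (mem_ed.1 hd3).1⟩)
        · exact Or.inr (Finset.mem_filter.2 ⟨hd2, hf⟩)
      · intro d hd d' hd' hdd
        exact hP.fn d (Finset.mem_filter.1 hd).1 d' (Finset.mem_filter.1 hd').1 hdd
    have h7 := Finset.card_union_le (DP lv s P A) ((ed A).filter (fun e => ¬ Fine lv s A e))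
    have h8 := card_Fine lv s A
    have h9 := Finset.card_filter_add_card_filter_not (s := ed A) (fun e => Fine lv s A e)
    have h10 : (ed A).card = A.card.choose 2 := card_ed A
    omega

/-- The pointwise bound. Proof: as `pointwise`, with `count_links` and `num29`. -/
theorem pointwise9 {ν z b E0 e : ℝ} (hν : 0 < ν) (hν1 : ν ≤ 1 / 200) (hN : 2 ≤ N)
    {Dl q K n D : ℕ} (P : GP N) (hP : P.Valid Dl) (A R : Finset (Fin N)) (lv : ℕ → ℕ)
    (hlv : Monotone lv) (s : St N r) (hdb : s.db = P.db) (hclm : s.clm = P.C)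
    (hrel : ∀ a b, (a, b) ∈ s.rel ↔ Bef s.ty a b ∧ Rch P R n a b)
    (hL : ∀ x ∈ A, x ∈ Lam P R → x ∈ Vs lv s 0) (hK : 2 * r + 5 ≤ lv K)
    (hty : ∀ x ∈ A, (s.ty x : ℕ) ≤ r) (hA : A.card = q)
    (hun : ((ed A \ P.C).card : ℝ) ≤ ν * Real.logb 2 N ^ 2) (he : 0 ≤ e)
    (hq1 : 2 * Real.logb 2 N - e ≤ q) (hq2 : (q : ℝ) ≤ 2 * Real.logb 2 N)
    (hD : (P.db.filter (fun d => d.1 ∈ ed A ∧ d.2 ∈ ed A)).card = D)
    (hD1 : (D : ℝ) = 400 * ν * Real.logb 2 N ^ 2)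
    (M : ℝ) (C : Finset (Finset (Fin N)))
    (hb : (((A ×ˢ A).filter (fun p => Bad M C p.1 p.2)).card : ℝ) ≤ b)
    (hz : (((ed A).filter (fun e => Zone lv K (tau s e))).card : ℝ) ≤ z)
    (hE : ((excS P A R).card : ℝ) ≤ E0)
    (herr : E0 + (q : ℝ) ^ 2 / ((n / 2 + 1 : ℕ) : ℝ) ≤ 200 * ν * Real.logb 2 N ^ 2)
    (hg : 565 / 1000 * ν * Real.logb 2 N ≤ (Ge lv s A).card) :
    ((Ge lv s A).card : ℝ) * Real.log N -
        ∑ k ∈ Finset.range K, gn s (Uk lv s M C k A) (Pairs lv s k A) ≤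
      Real.log 2 * (1 / 2 * ν * Real.logb 2 N ^ 2 +
        (q * e + q + (z + b) + E0 + (q : ℝ) ^ 2 / ((n / 2 + 1 : ℕ) : ℝ))) := by
  obtain ⟨s0, hs1, hs2, hs3, hs4⟩ := count_links P hP A R n lv s hdb hrel hL
  rw [hD, hA] at hs4
  have hlog2 : 0 < Real.log 2 := Real.log_pos (by norm_num)
  have hN1 : (1 : ℝ) < N := by
    have : (2 : ℝ) ≤ N := by exact_mod_cast hN
    linarith
  have hLpos : 0 < Real.logb 2 N := Real.logb_pos (by norm_num) hN1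
  have hlogN : Real.log N = Real.logb 2 N * Real.log 2 := by
    unfold Real.logb
    field_simp
  -- cardinalities
  have hGsub : Ge lv s A ⊆ A \ Vs lv s 0 := by
    intro x hx
    have h := Finset.mem_filter.1 hx
    exact Finset.mem_sdiff.2 ⟨h.1, h.2.1⟩
  have hgf : (Ge lv s A).card ≤ (A \ Vs lv s 0).card := Finset.card_le_card hGsub
  have hfu : (A \ Vs lv s 0).card + (A ∩ Vs lv s 0).card = q := by
    rw [← hA]
    exact Finset.card_sdiff_add_card_inter A (Vs lv s 0)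
  have hfuR : ((A \ Vs lv s 0).card : ℝ) + ((A ∩ Vs lv s 0).card : ℝ) = q := by
    exact_mod_cast hfu
  have hgfR : ((Ge lv s A).card : ℝ) ≤ ((A \ Vs lv s 0).card : ℝ) := by exact_mod_cast hgf
  have hu0 : (0 : ℝ) ≤ ((A ∩ Vs lv s 0).card : ℝ) := Nat.cast_nonneg _
  have hg0' : (0 : ℝ) ≤ ((Ge lv s A).card : ℝ) := Nat.cast_nonneg _
  have hz0 : 0 ≤ z := le_trans (Nat.cast_nonneg _) hz
  have hb0 : 0 ≤ b := le_trans (Nat.cast_nonneg _) hb
  have hE00 : 0 ≤ E0 := le_trans (Nat.cast_nonneg _) hE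
  have hn0 : (0 : ℝ) < ((n / 2 + 1 : ℕ) : ℝ) := by exact_mod_cast Nat.succ_pos _
  have hq0 : (0 : ℝ) ≤ q := Nat.cast_nonneg _
  have hδ0 : (0 : ℝ) ≤ (q : ℝ) / ((n / 2 + 1 : ℕ) : ℝ) := div_nonneg hq0 hn0.le
  -- the lower bound for the claimed edges
  have hcl := claimed_lower lv K s hK M C A hty
  have hun' : ((ed A \ s.clm).card : ℝ) ≤ ν * Real.logb 2 N ^ 2 := by
    rw [hclm]
    exact hun
  have hclR : (((A \ Vs lv s 0).card.choose 2 : ℕ) : ℝ) +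
      ((Ge lv s A).card : ℝ) * ((A ∩ Vs lv s 0).card : ℝ) ≤
      (∑ k ∈ Finset.range K, ((Uk lv s M C k A ∩ s.clm).card : ℝ)) +
        ((ed A \ s.clm).card : ℝ) +
        (((ed A).filter (fun e => Zone lv K (tau s e))).card : ℝ) +
        (((A ×ˢ A).filter (fun p => Bad M C p.1 p.2)).card : ℝ) := by
    exact_mod_cast hcl
  rw [Nat.cast_choose_two] at hclR
  -- the discounted edges
  have hdin : ∀ d ∈ s.db, ∀ d' ∈ s.db, d.1 = d'.1 → d = d' := by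
    rw [hdb]
    exact hP.fn
  have hdcl : ∀ d ∈ s.db, d.1 ∈ s.clm := by
    rw [hdb, hclm]
    exact hP.fst
  have hDT : (∑ k ∈ Finset.range K, (prt s (Uk lv s M C k A) (Pairs lv s k A) : ℝ)) ≤
      ∑ k ∈ Finset.range K, ((Uk lv s M C k A ∩ s.clm).card : ℝ) := by
    refine Finset.sum_le_sum (fun k _ => ?_)
    exact_mod_cast prt_le s hdin hdcl _ _
  have hsum := sum_prt_le lv hlv K s M C A
  have hDN : (∑ k ∈ Finset.range K, prt s (Uk lv s M C k A) (Pairs lv s k A)) + s0.choose 2 ≤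
      (A \ Vs lv s 0).card.choose 2 + (Ge lv s A).card * (A ∩ Vs lv s 0).card +
        (excS P A R).card := (Nat.add_le_add_right hsum _).trans hs3
  have hDR : (∑ k ∈ Finset.range K, (prt s (Uk lv s M C k A) (Pairs lv s k A) : ℝ)) +
      ((s0.choose 2 : ℕ) : ℝ) ≤
      (((A \ Vs lv s 0).card.choose 2 : ℕ) : ℝ) +
        ((Ge lv s A).card : ℝ) * ((A ∩ Vs lv s 0).card : ℝ) + ((excS P A R).card : ℝ) := by
    exact_mod_cast hDN
  rw [Nat.cast_choose_two, Nat.cast_choose_two] at hDR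
  have hD0R : (D : ℝ) + ((s0.choose 2 : ℕ) : ℝ) ≤ ((q.choose 2 : ℕ) : ℝ) +
      ((excS P A R).card : ℝ) := by
    exact_mod_cast hs4
  rw [Nat.cast_choose_two, Nat.cast_choose_two] at hD0R
  have hs2R : ((Ge lv s A).card : ℝ) ≤ (s0 : ℝ) + (q : ℝ) / ((n / 2 + 1 : ℕ) : ℝ) := by
    rw [hA] at hs2
    have h : ((Ge lv s A).card : ℝ) * ((n / 2 + 1 : ℕ) : ℝ) ≤
        (s0 : ℝ) * ((n / 2 + 1 : ℕ) : ℝ) + (q : ℝ) := by exact_mod_cast hs2
    have h2 : (s0 : ℝ) + (q : ℝ) / ((n / 2 + 1 : ℕ) : ℝ) =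
        ((s0 : ℝ) * ((n / 2 + 1 : ℕ) : ℝ) + (q : ℝ)) / ((n / 2 + 1 : ℕ) : ℝ) := by
      field_simp
    rw [h2, le_div_iff₀ hn0]
    exact h
  have hs1R : (s0 : ℝ) ≤ ((Ge lv s A).card : ℝ) := by exact_mod_cast hs1
  have hmain := num29 (ν := ν) (g0 := Real.log (4 / 3) / Real.log 2) (L := Real.logb 2 N)
    (f := ((A \ Vs lv s 0).card : ℝ)) (g := ((Ge lv s A).card : ℝ))
    (u := ((A ∩ Vs lv s 0).card : ℝ))
    (T := ∑ k ∈ Finset.range K, ((Uk lv s M C k A ∩ s.clm).card : ℝ))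
    (D := ∑ k ∈ Finset.range K, (prt s (Uk lv s M C k A) (Pairs lv s k A) : ℝ))
    (s0 := (s0 : ℝ)) (e1 := z + b) (E0 := E0) (δ := (q : ℝ) / ((n / 2 + 1 : ℕ) : ℝ))
    (e := e) (q := (q : ℝ)) (D0 := (D : ℝ))
    hν hν1 g0_bounds.1 g0_bounds.2 hLpos hu0 he hgfR hg hfuR hq1 hq2 (by linarith) hE00
    hδ0 (by linarith) hDT (Nat.cast_nonneg _) hs1R hs2R (by linarith) (by linarith) hD1
    (by
      have h : (q : ℝ) * ((q : ℝ) / ((n / 2 + 1 : ℕ) : ℝ)) =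
          (q : ℝ) ^ 2 / ((n / 2 + 1 : ℕ) : ℝ) := by ring
      rw [h]
      exact herr)
  -- the gains
  have hgn : ∑ k ∈ Finset.range K, gn s (Uk lv s M C k A) (Pairs lv s k A) =
      Real.log 2 * ((∑ k ∈ Finset.range K, ((Uk lv s M C k A ∩ s.clm).card : ℝ)) -
        Real.log (4 / 3) / Real.log 2 *
          ∑ k ∈ Finset.range K, (prt s (Uk lv s M C k A) (Pairs lv s k A) : ℝ)) := by
    unfold gn
    rw [Finset.sum_sub_distrib, ← Finset.sum_mul, ← Finset.sum_mul]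
    field_simp
  rw [hgn, hlogN]
  have hgq : ((Ge lv s A).card : ℝ) ≤ q := by linarith
  have hgδ : ((Ge lv s A).card : ℝ) * ((q : ℝ) / ((n / 2 + 1 : ℕ) : ℝ)) ≤
      (q : ℝ) ^ 2 / ((n / 2 + 1 : ℕ) : ℝ) := by
    calc ((Ge lv s A).card : ℝ) * ((q : ℝ) / ((n / 2 + 1 : ℕ) : ℝ))
        ≤ (q : ℝ) * ((q : ℝ) / ((n / 2 + 1 : ℕ) : ℝ)) := mul_le_mul_of_nonneg_right hgq hδ0
      _ = (q : ℝ) ^ 2 / ((n / 2 + 1 : ℕ) : ℝ) := by ring
  have hge : ((Ge lv s A).card : ℝ) * e ≤ q * e := mul_le_mul_of_nonneg_right hgq he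
  have hfin : ((Ge lv s A).card : ℝ) * Real.logb 2 N -
      (∑ k ∈ Finset.range K, ((Uk lv s M C k A ∩ s.clm).card : ℝ)) +
      Real.log (4 / 3) / Real.log 2 *
        (∑ k ∈ Finset.range K, (prt s (Uk lv s M C k A) (Pairs lv s k A) : ℝ)) ≤
      1 / 2 * ν * Real.logb 2 N ^ 2 +
        (q * e + q + (z + b) + E0 + (q : ℝ) ^ 2 / ((n / 2 + 1 : ℕ) : ℝ)) := by
    refine hmain.trans ?_
    linarith
  calc ((Ge lv s A).card : ℝ) * (Real.logb 2 N * Real.log 2) -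
        Real.log 2 * ((∑ k ∈ Finset.range K, ((Uk lv s M C k A ∩ s.clm).card : ℝ)) -
          Real.log (4 / 3) / Real.log 2 *
            ∑ k ∈ Finset.range K, (prt s (Uk lv s M C k A) (Pairs lv s k A) : ℝ))
      = Real.log 2 * (((Ge lv s A).card : ℝ) * Real.logb 2 N -
          (∑ k ∈ Finset.range K, ((Uk lv s M C k A ∩ s.clm).card : ℝ)) +
          Real.log (4 / 3) / Real.log 2 *
            (∑ k ∈ Finset.range K, (prt s (Uk lv s M C k A) (Pairs lv s k A) : ℝ))) := by ring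
    _ ≤ _ := mul_le_mul_of_nonneg_left hfin hlog2.le

end C0st
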