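import Pool.Agent.W_c0up_h14.MB
import Pool.Agent.W_c0up_h14.DefB
import Pool.Agent.W_c0up_h86.G1
import Pool.Agent.W_c0up_h86.D2
import Pool.Agent.W_c0q2_h86.PX9
import Pool.Agent.W_c0q2_h86.GH9

/-!
# MP_c0ce05_co, Q2 (section 9): the main finite theorem for `q ≈ 2 L` and many links
-/

set_option autoImplicit false

namespace C0st

open scoped Classical
open C0lo

theorem errK_mono {M : ℝ} (hM : 1 ≤ M) {N r n0 K D0 Dl q q' : ℕ} (hN : 1 ≤ N) (hq : q ≤ q') :
    errK M N r n0 K D0 Dl q ≤ errK M N r n0 K D0 Dl q' := by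
  have hqR : (q : ℝ) ≤ q' := by exact_mod_cast hq
  have hq0 : (0 : ℝ) ≤ q := Nat.cast_nonneg _
  have hq2 : (q : ℝ) ^ 2 ≤ (q' : ℝ) ^ 2 := pow_le_pow_left₀ hq0 hqR 2
  have hM0 : 0 < M := by linarith
  have hD0 : (0 : ℝ) ≤ D0 := Nat.cast_nonneg _
  have hlN : 0 ≤ Real.log (N : ℝ) := Real.log_natCast_nonneg N
  have hl16 : 0 ≤ Real.log (16 * ((r : ℝ) + 3)) := Real.log_nonneg (by
    have : (0 : ℝ) ≤ r := Nat.cast_nonneg _
    linarith)
  have h1 : 2 * (((D0 : ℝ) + 1) * ((r : ℝ) + 1) ^ 2 * (q : ℝ) ^ 2) *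
      (Real.log (16 * ((r : ℝ) + 3)) + 11 * Real.log N) ≤
      2 * (((D0 : ℝ) + 1) * ((r : ℝ) + 1) ^ 2 * (q' : ℝ) ^ 2) *
      (Real.log (16 * ((r : ℝ) + 3)) + 11 * Real.log N) := by
    refine mul_le_mul_of_nonneg_right ?_ (by positivity)
    refine mul_le_mul_of_nonneg_left ?_ (by norm_num)
    exact mul_le_mul_of_nonneg_left hq2 (by positivity)
  have h2 : (q : ℝ) * Real.log (q * D0 + 1) ≤ q' * Real.log (q' * D0 + 1) := by
    refine mul_le_mul hqR ?_ (Real.log_nonneg (by nlinarith)) (by linarith)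
    refine Real.log_le_log (by positivity) ?_
    have := mul_le_mul_of_nonneg_right hqR hD0
    linarith
  have h3 : 2 ^ (K + 1) * (((Dl : ℝ) + 1) * (q : ℝ) ^ 2) ≤
      2 ^ (K + 1) * (((Dl : ℝ) + 1) * (q' : ℝ) ^ 2) := by
    refine mul_le_mul_of_nonneg_left ?_ (by positivity)
    exact mul_le_mul_of_nonneg_left hq2 (by positivity)
  unfold errK
  have h4 : (Real.log (4 * n0 * K) + 2 * (((D0 : ℝ) + 1) * ((r : ℝ) + 1) ^ 2 * (q : ℝ) ^ 2) *
      (Real.log (16 * ((r : ℝ) + 3)) + 11 * Real.log N)) / M ^ 3 ≤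
      (Real.log (4 * n0 * K) + 2 * (((D0 : ℝ) + 1) * ((r : ℝ) + 1) ^ 2 * (q' : ℝ) ^ 2) *
      (Real.log (16 * ((r : ℝ) + 3)) + 11 * Real.log N)) / M ^ 3 :=
    div_le_div_of_nonneg_right (by linarith) (by positivity)
  have h5 : 2 ^ (K + 1) * (((Dl : ℝ) + 1) * (q : ℝ) ^ 2) / M ^ 4 ≤
      2 ^ (K + 1) * (((Dl : ℝ) + 1) * (q' : ℝ) ^ 2) / M ^ 4 :=
    div_le_div_of_nonneg_right h3 (by positivity)
  linarith

theorem errK_ge {M : ℝ} (hM : 1 ≤ M) {N r n0 K D0 Dl q : ℕ} (hn0 : 1 ≤ n0)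
    (hK : 1 ≤ K) : (r : ℝ) + 1 ≤ errK M N r n0 K D0 Dl q := by
  have hM0 : 0 < M := by linarith
  have hlN : 0 ≤ Real.log (N : ℝ) := Real.log_natCast_nonneg N
  have hl16 : 0 ≤ Real.log (16 * ((r : ℝ) + 3)) := Real.log_nonneg (by
    have : (0 : ℝ) ≤ r := Nat.cast_nonneg _
    linarith)
  have h1 : 0 ≤ Real.log (4 * (n0 : ℝ) * K) := by
    refine Real.log_nonneg ?_
    have a1 : (1 : ℝ) ≤ n0 := by exact_mod_cast hn0
    have a2 : (1 : ℝ) ≤ K := by exact_mod_cast hK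
    nlinarith
  have h2 : 0 ≤ (q : ℝ) * Real.log (q * D0 + 1) := by
    refine mul_nonneg (Nat.cast_nonneg _) (Real.log_nonneg ?_)
    have : (0 : ℝ) ≤ (q : ℝ) * D0 := by positivity
    linarith
  unfold errK
  have h4 : 0 ≤ (Real.log (4 * n0 * K) + 2 * (((D0 : ℝ) + 1) * ((r : ℝ) + 1) ^ 2 * (q : ℝ) ^ 2) *
      (Real.log (16 * ((r : ℝ) + 3)) + 11 * Real.log N)) / M ^ 3 := by positivity
  have h5 : 0 ≤ 2 ^ (K + 1) * (((Dl : ℝ) + 1) * (q : ℝ) ^ 2) / M ^ 4 := by positivity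
  linarith

/-- The main finite theorem, `q ≤ 2 L`, many links. Proof: as `static_main`, the numerical
conditions are used for `q ≤ q'` and `ν ≥ 10 η`. -/
theorem static_main9 {η M eps E0 e : ℝ} {N r n0 n q q' hu Dl D0 : ℕ}
    (h : Big η M eps E0 N r n0 n q' hu Dl D0) (heps : 0 ≤ eps) (hqq : q ≤ q') (hq0 : 1 ≤ q)
    (he0 : 0 ≤ e) (hq1 : 2 * Real.logb 2 N - e ≤ q) (hq2 : (q : ℝ) ≤ 2 * Real.logb 2 N)
    (heq : q * e ≤ 1 / 10 * η * Real.logb 2 N ^ 2) (hLL : 1000 ≤ Real.logb 2 N)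
    (hlogN1 : Real.log ((N : ℝ) + 1) ≤ (Real.logb 2 N + 1) * Real.log 2) :
    ∃ (ι : Type) (_ : Fintype ι) (Z : ι → Finset (Sym2 (Fin N))) (a : ι → ℝ),
      (∀ i, 0 ≤ a i) ∧ ∑ i, a i * (1 / 2 : ℝ) ^ (Z i).card ≤ 1 / 16 ∧
      ∀ P : GP N, P.Valid Dl → ∑ i, a i * P.mass (Z i) < 1 →
        ∀ (D : ℕ) (ν : ℝ), 10 * η ≤ ν → ν ≤ 1 / 200 → (D : ℝ) = 400 * ν * Real.logb 2 N ^ 2 →
        ∀ (C : Finset (Finset (Fin N))) (R : Finset (Fin N)),
          (∀ A ∈ C, A.card = q ∧ Disjoint (ed A) P.K ∧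
            (P.db.filter (fun d => d.1 ∈ ed A ∧ d.2 ∈ ed A)).card = D ∧
            ((ed A \ P.C).card : ℝ) ≤ ν * Real.logb 2 N ^ 2) → C.Nonempty →
          R.card ≤ q → (∀ A ∈ C, ((excS P A R).card : ℝ) ≤ E0) →
          ∑ A ∈ C, (((A ×ˢ A).filter (fun p => Bad M C p.1 p.2)).card : ℝ) ≤
            eps * (q : ℝ) ^ 2 * C.card →
          Real.log (C.card : ℝ) ≤ 572 / 1000 * ν * Real.logb 2 N ^ 2 * Real.log 2 := by
  have hN1 : 1 ≤ N := le_trans (by norm_num) h.N2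
  have hM1 : (1 : ℝ) < M := by linarith [h.M16]
  have hM0 : (0 : ℝ) < M := by linarith
  have hη0 := h.e0
  have hlog2 : 0 < Real.log 2 := Real.log_pos (by norm_num)
  obtain ⟨ι, hι, Z, a, ha, hsum, hobj⟩ := gibbsHS16 (N := N) (r := r) hN1 (I := Fin n0)
    (fun i => lvo n0 (i : ℕ)) (fun i => br M (lvo n0 (i : ℕ)) (9 * n0))
    (fun i k => nd M r D0 q (lvo n0 (i : ℕ) k)) q r
  refine ⟨ι, hι, Z, a, ha, hsum, ?_⟩
  intro P hP hmass D ν hν hν1 hD1 C R hCall hC0 hRq hE hBad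
  by_contra hcon
  rw [not_le] at hcon
  have hCq : ∀ A ∈ C, A.card = q := fun A hA => (hCall A hA).1
  have hCK : ∀ A ∈ C, Disjoint (ed A) P.K := fun A hA => (hCall A hA).2.1
  have hν0 : 0 < ν := by linarith
  set L : ℝ := Real.logb 2 N with hL
  have hL0 : 0 < L := by linarith
  have hLL2 : 0 < L ^ 2 := by positivity
  have hηL : 10 * (η * L ^ 2) ≤ ν * L ^ 2 := by nlinarith
  have hηL0 : 0 < η * L ^ 2 := mul_pos hη0 hLL2
  have hqR : (q : ℝ) ≤ q' := by exact_mod_cast hqq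
  have hqR0 : (1 : ℝ) ≤ q := by exact_mod_cast hq0
  have hD0R : (0 : ℝ) ≤ D0 := Nat.cast_nonneg _
  have hn0R : (0 : ℝ) < n0 := by exact_mod_cast (by linarith [h.n01] : 0 < n0)
  have hn2R : (0 : ℝ) < ((n / 2 + 1 : ℕ) : ℝ) := by exact_mod_cast Nat.succ_pos _
  have hqq2 : (q : ℝ) ^ 2 ≤ (q' : ℝ) ^ 2 := pow_le_pow_left₀ (by linarith) hqR 2
  -- the errors for `q`
  have herrP : q + 16 * (q : ℝ) ^ 2 / n0 + 16 * (eps * (q : ℝ) ^ 2) + E0 +
      (q : ℝ) ^ 2 / ((n / 2 + 1 : ℕ) : ℝ) ≤ 3 / 100 * η * L ^ 2 := by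
    refine le_trans ?_ h.errP
    have a1 : 16 * (q : ℝ) ^ 2 / n0 ≤ 16 * (q' : ℝ) ^ 2 / n0 :=
      div_le_div_of_nonneg_right (by linarith) hn0R.le
    have a2 : 16 * (eps * (q : ℝ) ^ 2) ≤ 16 * (eps * (q' : ℝ) ^ 2) := by
      have := mul_le_mul_of_nonneg_left hqq2 heps
      linarith
    have a3 : (q : ℝ) ^ 2 / ((n / 2 + 1 : ℕ) : ℝ) ≤ (q' : ℝ) ^ 2 / ((n / 2 + 1 : ℕ) : ℝ) :=
      div_le_div_of_nonneg_right hqq2 hn2R.le
    linarith
  have hMp : (0 : ℝ) ≤ M ^ (27 * n0) := by positivity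
  have hXS : (q : ℝ) * Real.log (q * M ^ (27 * n0) + 1) ≤
      q' * Real.log (q' * M ^ (27 * n0) + 1) := by
    refine mul_le_mul hqR ?_ (Real.log_nonneg (by nlinarith)) (by linarith)
    refine Real.log_le_log (by positivity) ?_
    have := mul_le_mul_of_nonneg_right hqR hMp
    linarith
  have hXD : (q : ℝ) * Real.log (q * D0 + 1) ≤ q' * Real.log (q' * D0 + 1) := by
    refine mul_le_mul hqR ?_ (Real.log_nonneg (by nlinarith)) (by linarith)
    refine Real.log_le_log (by positivity) ?_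
    have := mul_le_mul_of_nonneg_right hqR hD0R
    linarith
  have hlogNe : Real.log N = L * Real.log 2 := by
    rw [hL]
    unfold Real.logb
    field_simp
  have hlogN2 : L * Real.log 2 ≤ Real.log ((N : ℝ) + 1) := by
    rw [← hlogNe]
    refine Real.log_le_log (by exact_mod_cast hN1) (by linarith)
  have hX : (q : ℝ) * Real.log (q * M ^ (27 * n0) + 1) + q * Real.log (q * D0 + 1) +
      Real.log 16 ≤ 1 / 2000 * ν * L ^ 2 * Real.log 2 := by
    have a1 := h.errG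
    rw [← hL] at a1
    have a2 : 57 / 100 * η * L * (L * Real.log 2) ≤
        57 / 100 * η * L * Real.log ((N : ℝ) + 1) :=
      mul_le_mul_of_nonneg_left hlogN2 (by positivity)
    have a3 : 10 * (η * L ^ 2) * Real.log 2 ≤ ν * L ^ 2 * Real.log 2 :=
      mul_le_mul_of_nonneg_right hηL hlog2.le
    nlinarith
  have hty : (stG M r P C R n).ty = typ M r C := rfl
  set s : St N r := stG M r P C R n with hs
  have hmS : ∑ j, a j * massS s (Z j) < 1 := by
    have h1 : ∀ j, massS s (Z j) = P.mass (Z j) := fun j => massS_stG M P C R n (Z j)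
    rw [Finset.sum_congr rfl (fun j _ => by rw [h1 j])]
    exact hmass
  obtain ⟨i, hi, hoff⟩ := exists_offset n0 r h.n01 s C
  have hD0e : (1 + q * (2 + 2 * Dl)) ^ n ≤ D0 :=
    le_trans (Nat.pow_le_pow_left (Nat.add_le_add_left (Nat.mul_le_mul_right _ hqq) _) _) h.D0e
  have hOk : Ok (lvo n0 i) (9 * n0) D0 Dl s := ok_stG h.n01 i M P hP C R n q D0 hRq hD0e
  set lv : ℕ → ℕ := lvo n0 i with hlv
  have hlvge : ∀ k, 9 * (2 + k) ≤ lv k := lvo_ge h.n01 i
  have hlvm : Monotone lv := lvo_mono n0 i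
  -- the members with few generators
  have hG0 : 16 * (C.filter (fun A => ((Ge lv s A).card : ℝ) < 565 / 1000 * ν * L)).card ≤
      C.card := by
    refine G0_small hM1 hi C hC0 q hCq s hty hOk.ord D0 hOk.deg (c := 565 / 1000 * ν * L) ?_ ?_
    · positivity
    · have a1 : 565 / 1000 * ν * L * Real.log ((N : ℝ) + 1) ≤
          565 / 1000 * ν * L * ((L + 1) * Real.log 2) :=
        mul_le_mul_of_nonneg_left hlogN1 (by positivity)
      have a2 : 565 / 1000 * ν * L * ((L + 1) * Real.log 2) ≤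
          566 / 1000 * ν * L ^ 2 * Real.log 2 := by
        have b1 : 0 ≤ ν * L * Real.log 2 := by positivity
        have b2 : ν * L * Real.log 2 * 1000 ≤ ν * L * Real.log 2 * L :=
          mul_le_mul_of_nonneg_left hLL b1
        nlinarith
      have a3 : 0 ≤ ν * L ^ 2 * Real.log 2 := by positivity
      linarith
  -- typical members
  have hX16 : 16 * ((Lam P R).card : ℝ) ≤ M ^ 2 := by
    refine le_trans ?_ h.x0
    have h1 : (Lam P R).card ≤ q' ^ 2 * (2 + 4 * Dl) :=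
      (card_Lam_le P hP R).trans (Nat.mul_le_mul_right _ (Nat.pow_le_pow_left (hRq.trans hqq) 2))
    have h2 : ((Lam P R).card : ℝ) ≤ (q' : ℝ) ^ 2 * (2 + 4 * Dl) := by exact_mod_cast h1
    linarith
  obtain ⟨C1, hC1C, hC12, hC1⟩ := typical h.M16 (le_of_eq h.MN.symm) C hC0 q hCq (Lam P R) eps
    hBad (fun A => ((ed A).filter (fun e => Zone lv r (tau s e))).card) n0 hoff
    (C.filter (fun A => ((Ge lv s A).card : ℝ) < 565 / 1000 * ν * L))
    (Finset.filter_subset _ _) hG0 hX16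
  have hCpos : 0 < C.card := hC0.card_pos
  have hC1pos : 0 < C1.card := by omega
  have hC1ne : C1.Nonempty := Finset.card_pos.1 hC1pos
  have hE0p : 0 ≤ E0 := by
    obtain ⟨A, hA⟩ := hC0
    exact le_trans (Nat.cast_nonneg _) (hE A hA)
  -- the pointwise bound
  have hpt : ∀ A ∈ C1, ((Ge lv s A).card : ℝ) * Real.log N -
        ∑ k ∈ Finset.range r, gn s (Uk lv s M C k A) (Pairs lv s k A) ≤
      Real.log 2 * (514 / 1000 * ν * L ^ 2) := by
    intro A hA
    have hAC := hC1C hA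
    obtain ⟨h1, h2, h3, h4, h5⟩ := hC1 A hA
    obtain ⟨c1, c2, c3, c4⟩ := hCall A hAC
    have hz : (((ed A).filter (fun e => Zone lv r (tau s e))).card : ℝ) ≤
        16 * (q : ℝ) ^ 2 / n0 := by
      rw [le_div_iff₀ hn0R, mul_comm]
      exact_mod_cast h5
    have hg : 565 / 1000 * ν * Real.logb 2 N ≤ ((Ge lv s A).card : ℝ) := by
      by_contra hcon2
      rw [not_le] at hcon2
      exact h1 (Finset.mem_filter.2 ⟨hAC, hcon2⟩)
    have hrel : ∀ x y, (x, y) ∈ s.rel ↔ Bef s.ty x y ∧ Rch P R n x y := by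
      intro x y
      rw [hs]
      unfold stG
      rw [Finset.mem_filter, and_iff_right (Finset.mem_univ _)]
    have hLam : ∀ x ∈ A, x ∈ Lam P R → x ∈ Vs lv s 0 := by
      intro x hx hxL
      have h6 := typ_le_two (r := r) hM1 C hC0 x (h3 x hx hxL)
      rw [← hty] at h6
      rw [mem_Vs]
      have h7 := hlvge 0
      have h8 := h.r2
      omega
    have hbb : 16 * (eps * (q : ℝ) ^ 2) ≥ 0 := by positivity
    have hzz : 0 ≤ 16 * (q : ℝ) ^ 2 / n0 := by positivity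
    have h6 := pointwise9 hν0 hν1 h.N2 (K := r) (n := n) P hP A R lv hlvm s rfl rfl hrel hLam
      (by have := hlvge r; omega) h2 c1 c4 he0 hq1 hq2 c3 hD1 M C h4 hz (hE A hAC)
      (by
        have := herrP
        rw [← hL]
        nlinarith) hg
    refine h6.trans (mul_le_mul_of_nonneg_left ?_ hlog2.le)
    rw [← hL]
    linarith
  -- the data are small
  have hres : ∀ k, restr lv k s ∈ Data N r (nd M r D0 q (lv k)) := by
    intro k
    refine restr_mem hOk hM1.le hq0 (fun j hj => ?_) k _ (Nat.le_ceil _)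
    exact card_typ_le hM1 C hC0 q hCq j hj
  have hDpos : ∀ k, 0 < (Data N r (nd M r D0 q (lv k))).card := fun k =>
    Finset.card_pos.2 ⟨_, hres k⟩
  have hrR : (0 : ℝ) < (r : ℝ) := by exact_mod_cast (by linarith [h.r2] : 0 < r)
  have hg := gibbs hOk hN1 (b := br M lv (9 * n0)) (br_pos hM1.le lv (9 * n0)) hC1ne (q := q)
    (fun A hA => (hCq A (hC1C hA)).le) (K := r)
    (fun A hA x hx => mem_Vs.2 (by
      have h6 := (hC1 A hA).2.1 x hx
      rw [← hty] at h6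
      have h7 := hlvge r
      omega))
    (fun A hA => hCK A (hC1C hA)) (fun k A => Uk lv s M C k A)
    (fun k => 2 / M ^ (lv k + 4))
    (fun k _ A _ => Uk_subset lv s M C k A)
    (fun k _ => by positivity)
    (fun k _ e => theta hM1 C C1 hC1C hC12 hC0 lv s hty k e)
    (Λ := fun k => 16 * (Fintype.card (Fin n0) : ℝ) * (r : ℝ) *
      ((Data N r (nd M r D0 q (lv k))).card : ℝ))
    (fun k _ => by
      have h1 : (0 : ℝ) < (Fintype.card (Fin n0) : ℝ) := by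
        rw [Fintype.card_fin]
        exact hn0R
      have h3 : (0 : ℝ) < ((Data N r (nd M r D0 q (lv k))).card : ℝ) := by
        exact_mod_cast hDpos k
      positivity)
    (fun k hk => hobj s hmS ⟨i, hi⟩ (9 * n0) D0 Dl hOk k hk (hres k))
  -- the three terms
  have ht1 : av1 C1 (fun A => ((Ge lv s A).card : ℝ) * Real.log N -
        ∑ k ∈ Finset.range r, gn s (Uk lv s M C k A) (Pairs lv s k A)) ≤
      Real.log 2 * (514 / 1000 * ν * L ^ 2) := av1_le hC1ne hpt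
  have ht2 : Real.log ((Sub lv q s 0).card : ℝ) ≤ 1 / 1000 * η * L ^ 2 * Real.log 2 :=
    ((log_Sub_le hM1 hi C hC0 q hCq s hty).trans hXS).trans h.errS
  have ht3 : ∑ k ∈ Finset.range r, (Real.log (16 * (Fintype.card (Fin n0) : ℝ) * (r : ℝ) *
      ((Data N r (nd M r D0 q (lv k))).card : ℝ)) / (mm (br M lv (9 * n0)) (k + 1) : ℝ) +
        ((r : ℝ) + 1) + (q : ℝ) * Real.log ((q : ℝ) * D0 + 1) +
        (mm (br M lv (9 * n0)) (k + 1) : ℝ) *
          (2 / M ^ (lv k + 4) * ((Dl : ℝ) + 1) * (q : ℝ) ^ 2)) ≤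
      2 / 100 * η * L ^ 2 * Real.log 2 := by
    have h0 : ∀ k ∈ Finset.range r, (Real.log (16 * (Fintype.card (Fin n0) : ℝ) * (r : ℝ) *
      ((Data N r (nd M r D0 q (lv k))).card : ℝ)) / (mm (br M lv (9 * n0)) (k + 1) : ℝ) +
        ((r : ℝ) + 1) + (q : ℝ) * Real.log ((q : ℝ) * D0 + 1) +
        (mm (br M lv (9 * n0)) (k + 1) : ℝ) *
          (2 / M ^ (lv k + 4) * ((Dl : ℝ) + 1) * (q : ℝ) ^ 2)) ≤
        2 * errK M N r n0 r D0 Dl q' := by
      intro k hk
      rw [Fintype.card_fin]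
      have e1 := step_err hM1.le hN1 n0 r D0 Dl q h.n01 hq0 lv (9 * n0) (lvo_step n0 i)
        (fun k => by have := hlvge k; omega) k (Finset.mem_range.1 hk) (hDpos k)
      have e2 := errK_mono (M := M) (N := N) (r := r) (n0 := n0) (K := r) (D0 := D0) (Dl := Dl)
        hM1.le hN1 hqq
      have e3 := errK_ge (M := M) (N := N) (r := r) (n0 := n0) (K := r) (D0 := D0) (Dl := Dl)
        (q := q') hM1.le h.n01 (by linarith [h.r2])
      have hDk : (0 : ℝ) < ((Data N r (nd M r D0 q (lv k))).card : ℝ) := by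
        exact_mod_cast hDpos k
      have hmm : (1 : ℝ) ≤ (mm (br M lv (9 * n0)) (k + 1) : ℝ) := by
        refine le_trans ?_ (mm_lower hM1.le lv (9 * n0) (lvo_step n0 i) k)
        exact one_le_pow₀ hM1.le
      have e4 : Real.log (16 * (n0 : ℝ) * (r : ℝ) *
          ((Data N r (nd M r D0 q (lv k))).card : ℝ)) = Real.log 4 +
          Real.log (4 * (n0 : ℝ) * (r : ℝ) * ((Data N r (nd M r D0 q (lv k))).card : ℝ)) := by
        rw [← Real.log_mul (by norm_num) (by positivity)]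
        congr 1
        ring
      have e5 : Real.log 4 / (mm (br M lv (9 * n0)) (k + 1) : ℝ) ≤ Real.log 4 :=
        div_le_self (Real.log_nonneg (by norm_num)) hmm
      have e6 : Real.log 4 ≤ 3 := by
        have := Real.log_le_sub_one_of_pos (show (0 : ℝ) < 4 by norm_num)
        linarith
      have e7 : (3 : ℝ) ≤ (r : ℝ) + 1 := by
        have : (2 : ℝ) ≤ r := by exact_mod_cast h.r2
        linarith
      rw [e4, add_div]
      linarith
    refine (Finset.sum_le_sum h0).trans ?_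
    rw [Finset.sum_const, Finset.card_range, nsmul_eq_mul]
    have := h.errT
    rw [← hL] at this
    linarith
  -- the contradiction
  have hlogC : Real.log (C.card : ℝ) ≤ Real.log 2 + Real.log (C1.card : ℝ) := by
    have h1 : (0 : ℝ) < (C1.card : ℝ) := by exact_mod_cast hC1pos
    rw [← Real.log_mul (by norm_num) h1.ne']
    refine Real.log_le_log (by exact_mod_cast hCpos) ?_
    exact_mod_cast hC12
  have hbig := mul_le_mul_of_nonneg_right h.big hlog2.le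
  rw [← hL, one_mul] at hbig
  have hkey : Real.log (C1.card : ℝ) ≤ Real.log 2 * (514 / 1000 * ν * L ^ 2) +
      1 / 1000 * η * L ^ 2 * Real.log 2 + 2 / 100 * η * L ^ 2 * Real.log 2 := by
    refine hg.trans ?_
    exact add_le_add (add_le_add ht1 ht2) ht3
  have hfin : 10 * (η * L ^ 2) * Real.log 2 ≤ ν * L ^ 2 * Real.log 2 :=
    mul_le_mul_of_nonneg_right hηL hlog2.le
  nlinarith

end C0st
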